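import Mathlib

/-!
# Sowing positions with value `2 ^ (-n)` for every `n` (MP_90e647_co)

The row with the seed counts `5 n + 2`, then `n` blocks `W, W, W, 1, 0`, then `W, W`, where
`W = 5 n + 3`, has the value `2 ^ (-n)`.

Proof.  A pot with at least `5 n + 3` seeds is never moved: it is a wall.  In a block `1, 0` between
walls Left has no move and Right has one move, after which nothing is left.  Left's only other move is
to sow the first pot over the whole row.  After that move every block `1, 0` has become `2, 1` and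
every used block `0, 0` has become `1, 1`, between walls, and these positions are zero: each move has
a reply in the same block.  So the whole position is the ordinal sum of `1` and `-n`.
-/

set_option autoImplicit false

namespace Pool.Agent.Results.MP_90e647_co.AllPowers

/-! ### Games -/

/-- Partizan games in the sense of Conway: the options of Left and the options of Right. -/
inductive Game : Type 1
  | mk (α β : Type) (L : α → Game) (R : β → Game) : Game

namespace Game

/-- the game without moves -/
def zero : Game := mk Empty Empty (fun i => i.elim) (fun i => i.elim)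

/-- the negative of a game: the players change their roles -/
def neg : Game → Game
  | mk α β L R => mk β α (fun j => neg (R j)) (fun i => neg (L i))

/-- The (disjunctive) sum of two games: a move is a move in one of them. -/
noncomputable def add (G H : Game) : Game :=
  Game.rec (motive := fun _ => Game → Game)
    (fun α β _ _ sL sR H => Game.rec (motive := fun _ => Game)
      (fun α' β' L' R' tL tR => mk (α ⊕ α') (β ⊕ β')
        (Sum.elim (fun i => sL i (mk α' β' L' R')) tL)
        (Sum.elim (fun j => sR j (mk α' β' L' R')) tR)) H) G H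

/-- the defining equation of the sum -/
theorem add_def (α β : Type) (L : α → Game) (R : β → Game) (α' β' : Type) (L' : α' → Game)
    (R' : β' → Game) :
    add (mk α β L R) (mk α' β' L' R') = mk (α ⊕ α') (β ⊕ β')
      (Sum.elim (fun i => add (L i) (mk α' β' L' R')) (fun i => add (mk α β L R) (L' i)))
      (Sum.elim (fun j => add (R j) (mk α' β' L' R')) (fun j => add (mk α β L R) (R' j))) := rfl

/-- Normal play, a player without a move loses.  `G.leftWins true`: Left can win if she moves first.
`G.leftWins false`: Left can win if Right moves first. -/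
def leftWins : Game → Bool → Prop
  | mk _ _ L _, true => ∃ i, leftWins (L i) false
  | mk _ _ _ R, false => ∀ j, leftWins (R j) true

/-- Two games are equal in value if the second player wins their difference. -/
def Equal (G H : Game) : Prop :=
  leftWins (add G (neg H)) false ∧ ¬ leftWins (add G (neg H)) true

/-- The number `2 ^ (-n)` as a game: `1 = {0 | }` and `2 ^ (-(n + 1)) = {0 | 2 ^ (-n)}`. -/
def powHalf : ℕ → Game
  | 0 => mk Unit Empty (fun _ => zero) (fun i => i.elim)
  | n + 1 => mk Unit Unit (fun _ => zero) (fun _ => powHalf n)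

end Game

/-! ### Sowing -/

/-- Left's moves in a row of `k` pots with `a i` seeds in pot `i`: she takes the `a i ≥ 1` seeds of a
pot `i` and adds one to each of the pots `i + 1, …, j`, `j = i + a i`; the pot `j` must exist and must
not be empty. -/
def LeftMove {k : ℕ} (a b : Fin k → ℕ) : Prop :=
  ∃ i j : Fin k, 1 ≤ a i ∧ (j : ℕ) = i + a i ∧ 1 ≤ a j ∧
    b = fun l => if l = i then 0 else if i < l ∧ l ≤ j then a l + 1 else a l

/-- Right's moves: he takes the `a i ≥ 1` seeds of a pot `i` and adds one to each of the pots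
`i - 1, …, j`, `j = i - a i`; the pot `j` must exist and must not be empty. -/
def RightMove {k : ℕ} (a b : Fin k → ℕ) : Prop :=
  ∃ i j : Fin k, 1 ≤ a i ∧ (i : ℕ) = j + a i ∧ 1 ≤ a j ∧
    b = fun l => if l = i then 0 else if j ≤ l ∧ l < i then a l + 1 else a l

/-! ### Every play ends -/

/-- Left's moves, for functions on `ℕ` -/
def LM (l k : ℕ) (a b : ℕ → ℕ) : Prop :=
  ∃ i j, l ≤ i ∧ j < k ∧ 1 ≤ a i ∧ j = i + a i ∧ 1 ≤ a j ∧
    b = fun x => if x = i then 0 else if i < x ∧ x ≤ j then a x + 1 else a x

/-- Right's moves, for functions on `ℕ` -/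
def RM (l k : ℕ) (a b : ℕ → ℕ) : Prop :=
  ∃ i j, l ≤ j ∧ i < k ∧ 1 ≤ a i ∧ i = j + a i ∧ 1 ≤ a j ∧
    b = fun x => if x = i then 0 else if j ≤ x ∧ x < i then a x + 1 else a x

open Finset in
theorem sum_left (l k i j : ℕ) (a : ℕ → ℕ) (hi : l ≤ i) (hj : j < k) (hs : j = i + a i) :
    ∑ x ∈ Ico l k, (if x = i then 0 else if i < x ∧ x ≤ j then a x + 1 else a x) =
      ∑ x ∈ Ico l k, a x := by
  have h1 : ∀ x ∈ Ico l k, (if x = i then 0 else if i < x ∧ x ≤ j then a x + 1 else a x) +
      (if x = i then a i else 0) = a x + (if x ∈ Ioc i j then 1 else 0) := by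
    intro x _
    by_cases hx : x = i
    · subst hx; simp
    · by_cases h : i < x ∧ x ≤ j <;> simp [hx, h]
  have h2 := sum_congr rfl h1
  rw [sum_add_distrib, sum_add_distrib, sum_ite_eq', if_pos (mem_Ico.2 ⟨hi, by omega⟩)] at h2
  have h3 : ∑ x ∈ Ico l k, (if x ∈ Ioc i j then 1 else 0) = a i := by
    rw [← sum_filter, sum_const, smul_eq_mul, mul_one]
    have : (Ico l k).filter (fun x => x ∈ Ioc i j) = Ioc i j := by
      ext x; simp only [mem_filter, mem_Ico, mem_Ioc]; omega
    rw [this, Nat.card_Ioc]; omega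
  omega

open Finset in
theorem sum_right (l k i j : ℕ) (a : ℕ → ℕ) (hj : l ≤ j + 1) (hi : i < k) (hs : i = j + a i)
    (h1i : 1 ≤ a i) :
    ∑ x ∈ Ico l k, (if x = i then 0 else if j ≤ x ∧ x < i then a x + 1 else a x) +
      (if l ≤ j then 0 else 1) = ∑ x ∈ Ico l k, a x := by
  have h1 : ∀ x ∈ Ico l k, (if x = i then 0 else if j ≤ x ∧ x < i then a x + 1 else a x) +
      (if x = i then a i else 0) = a x + (if x ∈ Ico j i then 1 else 0) := by
    intro x _
    by_cases hx : x = i
    · subst hx; simp
    · by_cases h : j ≤ x ∧ x < i <;> simp [hx, h]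
  have h2 := sum_congr rfl h1
  rw [sum_add_distrib, sum_add_distrib, sum_ite_eq', if_pos (mem_Ico.2 ⟨by omega, hi⟩)] at h2
  have h3 : ∑ x ∈ Ico l k, (if x ∈ Ico j i then 1 else 0) + (if l ≤ j then 0 else 1) = a i := by
    rw [← sum_filter, sum_const, smul_eq_mul, mul_one]
    have : (Ico l k).filter (fun x => x ∈ Ico j i) = Ico (max l j) i := by
      ext x; simp only [mem_filter, mem_Ico, max_le_iff]; omega
    rw [this, Nat.card_Ico]
    split_ifs <;> omega
  omega

/-- every play ends -/
theorem wf_aux (k : ℕ) : ∀ m l : ℕ, l + m = k →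
    WellFounded (fun b a : ℕ → ℕ => LM l k a b ∨ RM l k a b) := by
  intro m
  induction m with
  | zero =>
    intro l hl
    refine ⟨fun a => ⟨a, fun b hb => ?_⟩⟩
    rcases hb with ⟨i, j, h1, h2, h3, h4, _⟩ | ⟨i, j, h1, h2, h3, h4, _⟩ <;> omega
  | succ m ih =>
    intro l hl
    have hw := ih (l + 1) (by omega)
    have hlex := WellFounded.prod_lex (wellFounded_lt (α := ℕ))
      (WellFounded.prod_lex (wellFounded_lt (α := ℕ)) hw)
    let f : (ℕ → ℕ) → ℕ × ℕ × (ℕ → ℕ) := fun a =>
      (if a l = 0 then 0 else 1, ∑ x ∈ Finset.Ico (l + 1) k, a x, a)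
    refine Subrelation.wf (r := InvImage _ f) ?_ (InvImage.wf f hlex)
    intro b a hb
    change Prod.Lex _ _ (f b) (f a)
    rcases hb with ⟨i, j, h1, h2, h3, h4, h5, rfl⟩ | ⟨i, j, h1, h2, h3, h4, h5, rfl⟩
    · rcases Nat.eq_or_lt_of_le h1 with h | h
      · subst h
        apply Prod.Lex.left
        have : a l ≠ 0 := by omega
        simp [this]
      · have e1 : (if l = i then 0 else if i < l ∧ l ≤ j then a l + 1 else a l) = a l := by
          rw [if_neg (by omega), if_neg (by omega)]
        have e2 := sum_left (l + 1) k i j a h h2 h4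
        change Prod.Lex _ _ ((if (if l = i then 0 else if i < l ∧ l ≤ j then a l + 1 else a l) = 0
          then 0 else 1), ∑ x ∈ Finset.Ico (l + 1) k,
            (if x = i then 0 else if i < x ∧ x ≤ j then a x + 1 else a x), _) (_, _, a)
        rw [e1, e2]
        exact Prod.Lex.right _ (Prod.Lex.right _ (Or.inl ⟨i, j, h, h2, h3, h4, h5, rfl⟩))
    · rcases Nat.eq_or_lt_of_le h1 with h | h
      · subst h
        have e1 : (if l = i then 0 else if l ≤ l ∧ l < i then a l + 1 else a l) = a l + 1 := by
          rw [if_neg (by omega), if_pos (by omega)]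
        have e2 := sum_right (l + 1) k i l a (by omega) h2 h4 h3
        rw [if_neg (by omega)] at e2
        have e3 : a l ≠ 0 := by omega
        change Prod.Lex _ _ ((if (if l = i then 0 else if l ≤ l ∧ l < i then a l + 1 else a l) = 0
          then 0 else 1), ∑ x ∈ Finset.Ico (l + 1) k,
            (if x = i then 0 else if l ≤ x ∧ x < i then a x + 1 else a x), _)
          ((if a l = 0 then 0 else 1), ∑ x ∈ Finset.Ico (l + 1) k, a x, a)
        rw [e1, if_neg e3, if_neg (Nat.succ_ne_zero _)]
        exact Prod.Lex.right _ (Prod.Lex.left _ _ (by omega))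
      · have e1 : (if l = i then 0 else if j ≤ l ∧ l < i then a l + 1 else a l) = a l := by
          rw [if_neg (by omega), if_neg (by omega)]
        have e2 := sum_right (l + 1) k i j a (by omega) h2 h4 h3
        rw [if_pos (by omega), add_zero] at e2
        change Prod.Lex _ _ ((if (if l = i then 0 else if j ≤ l ∧ l < i then a l + 1 else a l) = 0
          then 0 else 1), ∑ x ∈ Finset.Ico (l + 1) k,
            (if x = i then 0 else if j ≤ x ∧ x < i then a x + 1 else a x), _) (_, _, a)
        rw [e1, e2]
        exact Prod.Lex.right _ (Prod.Lex.right _ (Or.inr ⟨i, j, h, h2, h3, h4, h5, rfl⟩))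

/-- the extension by zero -/
def ext {k : ℕ} (a : Fin k → ℕ) (x : ℕ) : ℕ := if h : x < k then a ⟨x, h⟩ else 0

theorem ext_val {k : ℕ} (a : Fin k → ℕ) (i : Fin k) : ext a i = a i := by
  unfold ext; rw [dif_pos i.2]

theorem ext_out {k : ℕ} (a : Fin k → ℕ) (x : ℕ) (h : k ≤ x) : ext a x = 0 := by
  unfold ext; rw [dif_neg (by omega)]

theorem LM_of {k : ℕ} {a b : Fin k → ℕ} (h : LeftMove a b) : LM 0 k (ext a) (ext b) := by
  obtain ⟨i, j, h1, h2, h3, rfl⟩ := h
  refine ⟨i, j, Nat.zero_le _, j.2, ?_, ?_, ?_, ?_⟩
  · rw [ext_val]; exact h1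
  · rw [ext_val]; exact h2
  · rw [ext_val]; exact h3
  · funext x
    by_cases hx : x < k
    · have e : ext a x = a ⟨x, hx⟩ := ext_val a ⟨x, hx⟩
      rw [e]
      unfold ext
      rw [dif_pos hx]
      simp only [Fin.ext_iff, Fin.lt_def, Fin.le_def]
    · rw [ext_out _ _ (by omega), ext_out _ _ (by omega)]
      rw [if_neg (by omega), if_neg (by omega)]

theorem RM_of {k : ℕ} {a b : Fin k → ℕ} (h : RightMove a b) : RM 0 k (ext a) (ext b) := by
  obtain ⟨i, j, h1, h2, h3, rfl⟩ := h
  refine ⟨i, j, Nat.zero_le _, i.2, ?_, ?_, ?_, ?_⟩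
  · rw [ext_val]; exact h1
  · rw [ext_val]; exact h2
  · rw [ext_val]; exact h3
  · funext x
    by_cases hx : x < k
    · have e : ext a x = a ⟨x, hx⟩ := ext_val a ⟨x, hx⟩
      rw [e]
      unfold ext
      rw [dif_pos hx]
      simp only [Fin.ext_iff, Fin.lt_def, Fin.le_def]
    · rw [ext_out _ _ (by omega), ext_out _ _ (by omega)]
      rw [if_neg (by omega), if_neg (by omega)]

theorem LM_to {k : ℕ} {a : Fin k → ℕ} {c : ℕ → ℕ} (h : LM 0 k (ext a) c) :
    ∃ b, LeftMove a b ∧ ext b = c := by
  obtain ⟨i, j, _, h0, h1, h2, h3, rfl⟩ := h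
  have hi : i < k := by omega
  refine ⟨_, ⟨⟨i, hi⟩, ⟨j, h0⟩, ?_, ?_, ?_, rfl⟩, ?_⟩
  · have := ext_val a ⟨i, hi⟩
    simp only at this; omega
  · have := ext_val a ⟨i, hi⟩
    simp only at this; simp only; omega
  · have := ext_val a ⟨j, h0⟩
    simp only at this; omega
  · funext x
    by_cases hx : x < k
    · have e : ext a x = a ⟨x, hx⟩ := ext_val a ⟨x, hx⟩
      rw [e]
      unfold ext
      rw [dif_pos hx]
      simp only [Fin.ext_iff, Fin.lt_def, Fin.le_def]
    · rw [ext_out _ _ (by omega), ext_out _ _ (by omega)]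
      rw [if_neg (by omega), if_neg (by omega)]

theorem RM_to {k : ℕ} {a : Fin k → ℕ} {c : ℕ → ℕ} (h : RM 0 k (ext a) c) :
    ∃ b, RightMove a b ∧ ext b = c := by
  obtain ⟨i, j, _, h0, h1, h2, h3, rfl⟩ := h
  have hj : j < k := by omega
  refine ⟨_, ⟨⟨i, h0⟩, ⟨j, hj⟩, ?_, ?_, ?_, rfl⟩, ?_⟩
  · have := ext_val a ⟨i, h0⟩
    simp only at this; omega
  · have := ext_val a ⟨i, h0⟩
    simp only at this; simp only; omega
  · have := ext_val a ⟨j, hj⟩
    simp only at this; omega
  · funext x
    by_cases hx : x < k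
    · have e : ext a x = a ⟨x, hx⟩ := ext_val a ⟨x, hx⟩
      rw [e]
      unfold ext
      rw [dif_pos hx]
      simp only [Fin.ext_iff, Fin.lt_def, Fin.le_def]
    · rw [ext_out _ _ (by omega), ext_out _ _ (by omega)]
      rw [if_neg (by omega), if_neg (by omega)]

/-- every play of Sowing ends -/
theorem wf (k : ℕ) : WellFounded (fun b a : Fin k → ℕ => LeftMove a b ∨ RightMove a b) := by
  refine Subrelation.wf ?_ (InvImage.wf ext (wf_aux k k 0 (by omega)))
  intro b a h
  rcases h with h | h
  · exact Or.inl (LM_of h)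
  · exact Or.inr (RM_of h)

/-- A Sowing position as a game. -/
noncomputable def game {k : ℕ} (a : Fin k → ℕ) : Game :=
  (wf k).fix (fun a g => Game.mk {b // LeftMove a b} {b // RightMove a b}
    (fun b => g b.1 (Or.inl b.2)) (fun b => g b.1 (Or.inr b.2))) a

/-- the defining equation of the game of a position -/
theorem game_def {k : ℕ} (a : Fin k → ℕ) :
    game a = Game.mk {b // LeftMove a b} {b // RightMove a b} (fun b => game b.1)
      (fun b => game b.1) := by
  unfold game
  rw [WellFounded.fix_eq]

/-! ### The positions -/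

/-- positions after Left has sown the first pot, not worse than zero for Left -/
def ZL (n : ℕ) (a : ℕ → ℕ) : Prop :=
  a 0 = 0 ∧ (∀ j, j < 5 * n + 3 → (j % 5 = 1 ∨ j % 5 = 2 ∨ j % 5 = 3) → 5 * n + 3 ≤ a j) ∧
  ∀ t, t < n → (a (5 * t + 4) = 0 ∧ a (5 * t + 5) = 0) ∨ (a (5 * t + 4) = 0 ∧ a (5 * t + 5) = 1) ∨
    (a (5 * t + 4) = 1 ∧ a (5 * t + 5) = 1) ∨ (a (5 * t + 4) = 2 ∧ a (5 * t + 5) = 1)

/-- positions after Left has sown the first pot, not better than zero for Left -/
def ZR (n : ℕ) (a : ℕ → ℕ) : Prop :=
  a 0 = 0 ∧ (∀ j, j < 5 * n + 3 → (j % 5 = 1 ∨ j % 5 = 2 ∨ j % 5 = 3) → 5 * n + 3 ≤ a j) ∧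
  ∀ t, t < n → (a (5 * t + 4) = 0 ∧ a (5 * t + 5) = 0) ∨ (a (5 * t + 4) = 1 ∧ a (5 * t + 5) = 0) ∨
    (a (5 * t + 4) = 1 ∧ a (5 * t + 5) = 1) ∨ (a (5 * t + 4) = 2 ∧ a (5 * t + 5) = 1)

/-- positions in which `m` blocks are unused -/
def St (n m : ℕ) (a : ℕ → ℕ) : Prop :=
  a 0 = 5 * n + 2 ∧
  (∀ j, j < 5 * n + 3 → (j % 5 = 1 ∨ j % 5 = 2 ∨ j % 5 = 3) → 5 * n + 3 ≤ a j) ∧
  (∀ t, t < n → (a (5 * t + 4) = 0 ∨ a (5 * t + 4) = 1) ∧ a (5 * t + 5) = 0) ∧
  ((Finset.range n).filter (fun t => a (5 * t + 4) = 1)).card = m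

theorem cases_mod (n i : ℕ) (h : i < 5 * n + 3) : i = 0 ∨ (i % 5 = 1 ∨ i % 5 = 2 ∨ i % 5 = 3) ∨
    ∃ t, t < n ∧ (i = 5 * t + 4 ∨ i = 5 * t + 5) := by
  by_cases h0 : i = 0
  · exact Or.inl h0
  · by_cases h1 : i % 5 = 1 ∨ i % 5 = 2 ∨ i % 5 = 3
    · exact Or.inr (Or.inl h1)
    · refine Or.inr (Or.inr ?_)
      rcases (by omega : i % 5 = 4 ∨ i % 5 = 0) with h2 | h2
      · exact ⟨i / 5, by omega, Or.inl (by omega)⟩
      · exact ⟨i / 5 - 1, by omega, Or.inr (by omega)⟩

theorem ZL_step {n : ℕ} {a b : ℕ → ℕ} (hz : ZL n a) (hm : RM 0 (5 * n + 3) a b) :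
    ∃ c, LM 0 (5 * n + 3) b c ∧ ZL n c := by
  obtain ⟨h0, hw, hg⟩ := hz
  obtain ⟨i, j, _, hi, h1, h2, h3, rfl⟩ := hm
  rcases cases_mod n i hi with h | h | ⟨t, ht, h⟩
  · subst h; omega
  · have := hw i hi h; omega
  · have w3 := hw (5 * t + 3) (by omega) (by omega)
    have w2 := hw (5 * t + 2) (by omega) (by omega)
    have w6 := hw (5 * t + 6) (by omega) (by omega)
    have w7 := hw (5 * t + 7) (by omega) (by omega)
    have g := hg t ht
    rcases h with rfl | rfl
    · -- Right moves the first pot of the block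
      refine ⟨_, ⟨5 * t + 5, 5 * t + 6, Nat.zero_le _, by omega, ?_, ?_, ?_, rfl⟩, ?_, ?_, ?_⟩
      · beta_reduce
        rw [if_neg (by omega), if_neg (by omega)]
        rcases g with g | g | g | g
        · omega
        · omega
        · omega
        · omega
      · beta_reduce
        rw [if_neg (by omega), if_neg (by omega)]
        omega
      · beta_reduce
        rw [if_neg (by omega), if_neg (by omega)]
        omega
      · beta_reduce
        split_ifs <;> omega
      · intro x hx hx5
        have := hw x hx hx5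
        beta_reduce
        split_ifs <;> omega
      · intro t' ht'
        have g' := hg t' ht'
        by_cases e : t' = t
        · subst e
          left
          beta_reduce
          split_ifs <;> omega
        · beta_reduce
          split_ifs <;> omega
    · -- Right moves the second pot of the block
      have ga : a (5 * t + 5) = 1 := by omega
      have gj : j = 5 * t + 4 := by omega
      subst gj
      refine ⟨_, ⟨5 * t + 4, 5 * t + 5 + a (5 * t + 4), Nat.zero_le _, by omega, ?_, ?_, ?_, rfl⟩,
        ?_, ?_, ?_⟩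
      · beta_reduce
        rw [if_neg (by omega), if_pos (by omega)]
        omega
      · beta_reduce
        rw [if_neg (by omega), if_pos (by omega)]
        omega
      · rcases (by omega : a (5 * t + 4) = 1 ∨ a (5 * t + 4) = 2) with g1 | g1
        · have e7 : 5 * t + 5 + 1 = 5 * t + 6 := by omega
          beta_reduce
          rw [g1, if_neg (by omega), if_neg (by omega), e7]
          omega
        · have e7 : 5 * t + 5 + 2 = 5 * t + 7 := by omega
          beta_reduce
          rw [g1, if_neg (by omega), if_neg (by omega), e7]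
          omega
      · beta_reduce
        split_ifs <;> omega
      · intro x hx hx5
        have := hw x hx hx5
        beta_reduce
        split_ifs <;> omega
      · intro t' ht'
        have g' := hg t' ht'
        by_cases e : t' = t
        · subst e
          right; left
          beta_reduce
          split_ifs <;> omega
        · beta_reduce
          split_ifs <;> omega

theorem ZR_step {n : ℕ} {a b : ℕ → ℕ} (hz : ZR n a) (hm : LM 0 (5 * n + 3) a b) :
    ∃ c, RM 0 (5 * n + 3) b c ∧ ZR n c := by
  obtain ⟨h0, hw, hg⟩ := hz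
  obtain ⟨i, j, _, hj, h1, h2, h3, rfl⟩ := hm
  rcases cases_mod n i (by omega) with h | h | ⟨t, ht, h⟩
  · subst h; omega
  · have := hw i (by omega) h; omega
  · have w3 := hw (5 * t + 3) (by omega) (by omega)
    have w2 := hw (5 * t + 2) (by omega) (by omega)
    have w6 := hw (5 * t + 6) (by omega) (by omega)
    have w7 := hw (5 * t + 7) (by omega) (by omega)
    have g := hg t ht
    rcases h with rfl | rfl
    · -- Left moves the first pot of the block
      have ga : a (5 * t + 5) = 1 := by
        rcases g with g | g | g | g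
        · omega
        · have : j = 5 * t + 5 := by omega
          rw [this] at h3
          omega
        · omega
        · omega
      refine ⟨_, ⟨5 * t + 5, 5 * t + 3, Nat.zero_le _, by omega, ?_, ?_, ?_, rfl⟩, ?_, ?_, ?_⟩
      · beta_reduce
        rw [if_neg (by omega), if_pos (by omega)]
        omega
      · beta_reduce
        rw [if_neg (by omega), if_pos (by omega)]
        omega
      · beta_reduce
        rw [if_neg (by omega), if_neg (by omega)]
        omega
      · beta_reduce
        split_ifs <;> omega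
      · intro x hx hx5
        have := hw x hx hx5
        beta_reduce
        split_ifs <;> omega
      · intro t' ht'
        have g' := hg t' ht'
        by_cases e : t' = t
        · subst e
          right; left
          beta_reduce
          split_ifs <;> omega
        · beta_reduce
          split_ifs <;> omega
    · -- Left moves the second pot of the block
      have ga : a (5 * t + 5) = 1 := by omega
      have gj : j = 5 * t + 6 := by omega
      subst gj
      have gx : a (5 * t + 4) = 1 ∨ a (5 * t + 4) = 2 := by omega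
      refine ⟨_, ⟨5 * t + 4, 5 * t + 4 - a (5 * t + 4), Nat.zero_le _, by omega, ?_, ?_, ?_, rfl⟩,
        ?_, ?_, ?_⟩
      · beta_reduce
        rw [if_neg (by omega), if_neg (by omega)]
        omega
      · beta_reduce
        rw [if_neg (by omega), if_neg (by omega)]
        omega
      · rcases gx with g1 | g1
        · beta_reduce
          rw [g1, if_neg (by omega), if_neg (by omega)]
          have : 5 * t + 4 - 1 = 5 * t + 3 := by omega
          rw [this]; omega
        · beta_reduce
          rw [g1, if_neg (by omega), if_neg (by omega)]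
          have : 5 * t + 4 - 2 = 5 * t + 2 := by omega
          rw [this]; omega
      · beta_reduce
        split_ifs <;> omega
      · intro x hx hx5
        have := hw x hx hx5
        beta_reduce
        split_ifs <;> omega
      · intro t' ht'
        have g' := hg t' ht'
        by_cases e : t' = t
        · subst e
          left
          beta_reduce
          split_ifs <;> omega
        · beta_reduce
          split_ifs <;> omega

theorem St_left {n m : ℕ} {a b : ℕ → ℕ} (hs : St n m a) (hm : LM 0 (5 * n + 3) a b) :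
    ZL n b ∧ ZR n b := by
  obtain ⟨h0, hw, hg, hc⟩ := hs
  obtain ⟨i, j, _, hj, h1, h2, h3, rfl⟩ := hm
  have hi0 : i = 0 := by
    rcases cases_mod n i (by omega) with h | h | ⟨t, ht, h⟩
    · exact h
    · have := hw i (by omega) h; omega
    · have g := hg t ht
      rcases h with rfl | rfl
      · have : j = 5 * t + 5 := by omega
        rw [this] at h3
        omega
      · omega
  subst hi0
  have hj2 : j = 5 * n + 2 := by omega
  subst hj2
  have key : ∀ t, t < n → (a (5 * t + 4) + 1 = 1 ∨ a (5 * t + 4) + 1 = 2) ∧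
      a (5 * t + 5) + 1 = 1 := by
    intro t ht
    have := hg t ht
    omega
  refine ⟨⟨by simp, ?_, ?_⟩, ⟨by simp, ?_, ?_⟩⟩
  · intro x hx hx5
    have := hw x hx hx5
    beta_reduce
    split_ifs <;> omega
  · intro t ht
    have := key t ht
    beta_reduce
    rw [if_neg (by omega), if_pos (by omega), if_neg (by omega), if_pos (by omega)]
    omega
  · intro x hx hx5
    have := hw x hx hx5
    beta_reduce
    split_ifs <;> omega
  · intro t ht
    have := key t ht
    beta_reduce
    rw [if_neg (by omega), if_pos (by omega), if_neg (by omega), if_pos (by omega)]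
    omega

theorem St_left_ex {n m : ℕ} {a : ℕ → ℕ} (hs : St n m a) : ∃ b, LM 0 (5 * n + 3) a b := by
  obtain ⟨h0, hw, hg, hc⟩ := hs
  have hw' := hw (5 * n + 2) (by omega) (by omega)
  exact ⟨_, 0, 5 * n + 2, le_rfl, by omega, by omega, by omega, by omega, rfl⟩

open Finset in
theorem St_move {n m : ℕ} {a : ℕ → ℕ} (hs : St n m a) {t : ℕ} (ht : t < n)
    (h1 : a (5 * t + 4) = 1) : ∃ m', m = m' + 1 ∧ St n m' (fun x => if x = 5 * t + 4 then 0 else
      if 5 * t + 3 ≤ x ∧ x < 5 * t + 4 then a x + 1 else a x) := by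
  obtain ⟨h0, hw, hg, hc⟩ := hs
  have e1 : (range n).filter (fun s => (if 5 * s + 4 = 5 * t + 4 then 0 else
      if 5 * t + 3 ≤ 5 * s + 4 ∧ 5 * s + 4 < 5 * t + 4 then a (5 * s + 4) + 1
        else a (5 * s + 4)) = 1) = ((range n).filter (fun s => a (5 * s + 4) = 1)).erase t := by
    ext s
    simp only [mem_filter, mem_range, mem_erase]
    by_cases hst : s = t
    · subst hst; simp
    · rw [if_neg (by omega), if_neg (by omega)]
      tauto
  have e2 : t ∈ (range n).filter (fun s => a (5 * s + 4) = 1) := by
    simp only [mem_filter, mem_range]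
    exact ⟨ht, h1⟩
  have e3 := card_erase_of_mem e2
  have e4 : 0 < ((range n).filter (fun s => a (5 * s + 4) = 1)).card := card_pos.2 ⟨t, e2⟩
  refine ⟨m - 1, by omega, ?_, ?_, ?_, ?_⟩
  · beta_reduce
    rw [if_neg (by omega), if_neg (by omega)]
    exact h0
  · intro x hx hx5
    have := hw x hx hx5
    beta_reduce
    split_ifs <;> omega
  · intro s hs
    have g := hg s hs
    by_cases e : s = t
    · subst e
      beta_reduce
      split_ifs <;> omega
    · beta_reduce
      split_ifs <;> omega
  · beta_reduce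
    rw [e1, e3, hc]

theorem St_right {n m : ℕ} {a b : ℕ → ℕ} (hs : St n m a) (hm : RM 0 (5 * n + 3) a b) :
    ∃ m', m = m' + 1 ∧ St n m' b := by
  obtain ⟨i, j, _, hi, h1, h2, h3, rfl⟩ := hm
  rcases cases_mod n i hi with h | h | ⟨t, ht, h⟩
  · subst h; have := hs.1; omega
  · have := hs.2.1 i hi h; omega
  · have g := hs.2.2.1 t ht
    rcases h with rfl | rfl
    · have ga : a (5 * t + 4) = 1 := by omega
      have gj : j = 5 * t + 3 := by omega
      subst gj
      exact St_move hs ht ga
    · omega

theorem St_right_ex {n m : ℕ} {a : ℕ → ℕ} (hs : St n (m + 1) a) :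
    ∃ b, RM 0 (5 * n + 3) a b ∧ St n m b := by
  have h1 : 0 < ((Finset.range n).filter (fun s => a (5 * s + 4) = 1)).card := by
    rw [hs.2.2.2]; omega
  obtain ⟨t, ht⟩ := Finset.card_pos.1 h1
  simp only [Finset.mem_filter, Finset.mem_range] at ht
  obtain ⟨m', hm', hs'⟩ := St_move hs ht.1 ht.2
  have : m' = m := by omega
  subst this
  have w3 := hs.2.1 (5 * t + 3) (by omega) (by omega)
  exact ⟨_, ⟨5 * t + 4, 5 * t + 3, Nat.zero_le _, by omega, by omega, by omega, by omega, rfl⟩, hs'⟩

/-- a move, downwards -/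
def Rel (k : ℕ) (b a : Fin k → ℕ) : Prop := LeftMove a b ∨ RightMove a b

open Game in
theorem game_false {k : ℕ} (a : Fin k → ℕ) (α β : Type) (L : α → Game) (R : β → Game) :
    leftWins (add (game a) (mk α β L R)) false ↔
      (∀ b, RightMove a b → leftWins (add (game b) (mk α β L R)) true) ∧
        ∀ j, leftWins (add (game a) (R j)) true := by
  rw [game_def a]
  constructor
  · intro h
    exact ⟨fun b hb => h (Sum.inl ⟨b, hb⟩), fun j => h (Sum.inr j)⟩
  · rintro ⟨h1, h2⟩ (⟨b, hb⟩ | j)
    · exact h1 b hb
    · exact h2 j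

open Game in
theorem game_true {k : ℕ} (a : Fin k → ℕ) (α β : Type) (L : α → Game) (R : β → Game) :
    leftWins (add (game a) (mk α β L R)) true ↔
      (∃ b, LeftMove a b ∧ leftWins (add (game b) (mk α β L R)) false) ∨
        ∃ i, leftWins (add (game a) (L i)) false := by
  rw [game_def a]
  constructor
  · rintro ⟨⟨b, hb⟩ | i, h⟩
    · exact Or.inl ⟨b, hb, h⟩
    · exact Or.inr ⟨i, h⟩
  · rintro (⟨b, hb, h⟩ | ⟨i, h⟩)
    · exact ⟨Sum.inl ⟨b, hb⟩, h⟩
    · exact ⟨Sum.inr i, h⟩

open Game in
theorem neg_zero' : neg zero = mk Empty Empty (fun j => neg (Empty.elim j))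
    (fun i => neg (Empty.elim i)) := rfl

open Game in
theorem neg_pow_zero : neg (powHalf 0) = mk Empty Unit (fun j => neg (Empty.elim j))
    (fun _ => neg zero) := rfl

open Game in
theorem neg_pow_succ (m : ℕ) : neg (powHalf (m + 1)) = mk Unit Unit (fun _ => neg (powHalf m))
    (fun _ => neg zero) := rfl

open Game in
theorem ZL_wins {n : ℕ} (a : Fin (5 * n + 3) → ℕ) :
    ZL n (ext a) → leftWins (add (game a) (neg zero)) false := by
  have hwf : WellFounded (Relation.TransGen (Rel (5 * n + 3))) := (wf (5 * n + 3)).transGen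
  induction a using hwf.induction with
  | _ a ih =>
    intro hz
    rw [neg_zero', game_false]
    refine ⟨fun b hb => ?_, fun j => j.elim⟩
    obtain ⟨c, hc, hzc⟩ := ZL_step hz (RM_of hb)
    obtain ⟨c', hc', rfl⟩ := LM_to hc
    rw [game_true]
    exact Or.inl ⟨c', hc', ih c' (Relation.TransGen.tail
      (Relation.TransGen.single (Or.inl hc')) (Or.inr hb)) hzc⟩

open Game in
theorem ZR_wins {n : ℕ} (a : Fin (5 * n + 3) → ℕ) :
    ZR n (ext a) → ¬ leftWins (add (game a) (neg zero)) true := by
  have hwf : WellFounded (Relation.TransGen (Rel (5 * n + 3))) := (wf (5 * n + 3)).transGen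
  induction a using hwf.induction with
  | _ a ih =>
    intro hz
    rw [neg_zero', game_true]
    rintro (⟨b, hb, hj⟩ | ⟨j, _⟩)
    · obtain ⟨c, hc, hzc⟩ := ZR_step hz (LM_of hb)
      obtain ⟨c', hc', rfl⟩ := RM_to hc
      rw [game_false] at hj
      exact ih c' (Relation.TransGen.tail
        (Relation.TransGen.single (Or.inr hc')) (Or.inl hb)) hzc (hj.1 c' hc')
    · exact j.elim

open Game in
theorem St_zero {n m : ℕ} {a : Fin (5 * n + 3) → ℕ} (hs : St n m (ext a)) :
    leftWins (add (game a) (neg zero)) true := by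
  obtain ⟨b, hb⟩ := St_left_ex hs
  obtain ⟨b', hb', rfl⟩ := LM_to hb
  rw [neg_zero', game_true]
  exact Or.inl ⟨b', hb', ZL_wins b' (St_left hs hb).1⟩

open Game in
theorem St_value {n : ℕ} : ∀ (m : ℕ) (a : Fin (5 * n + 3) → ℕ), St n m (ext a) →
    Equal (game a) (powHalf m) := by
  intro m
  induction m with
  | zero =>
    intro a hs
    refine ⟨?_, ?_⟩
    · rw [neg_pow_zero, game_false]
      refine ⟨fun b hb => ?_, fun j => St_zero hs⟩
      obtain ⟨m', hm', _⟩ := St_right hs (RM_of hb)
      omega
    · rw [neg_pow_zero, game_true]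
      rintro (⟨b, hb, hj⟩ | ⟨j, _⟩)
      · rw [game_false] at hj
        exact ZR_wins b (St_left hs (LM_of hb)).2 (hj.2 ())
      · exact j.elim
  | succ m ih =>
    intro a hs
    obtain ⟨c, hc, hsc⟩ := St_right_ex hs
    obtain ⟨c', hc', rfl⟩ := RM_to hc
    refine ⟨?_, ?_⟩
    · rw [neg_pow_succ, game_false]
      refine ⟨fun b hb => ?_, fun j => St_zero hs⟩
      obtain ⟨m', hm', hsb⟩ := St_right hs (RM_of hb)
      have : m' = m := by omega
      subst this
      rw [game_true]
      exact Or.inr ⟨(), (ih b hsb).1⟩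
    · rw [neg_pow_succ, game_true]
      rintro (⟨b, hb, hj⟩ | ⟨j, hj⟩)
      · rw [game_false] at hj
        exact ZR_wins b (St_left hs (LM_of hb)).2 (hj.2 ())
      · obtain ⟨α, β, L, R, hH⟩ : ∃ α β L R, neg (powHalf m) = mk α β L R := by
          cases neg (powHalf m) with
          | mk α β L R => exact ⟨α, β, L, R, rfl⟩
        have h2 := (ih c' hsc).2
        rw [hH] at hj h2
        rw [game_false] at hj
        exact h2 (hj.1 c' hc')

/-- The position for `n`: the first pot has `5 n + 2` seeds, then there are `n` blocks of pots with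
`W, W, W, 1, 0` seeds and at the end two pots with `W` seeds, where `W = 5 n + 3`. -/
def position (n : ℕ) : Fin (5 * n + 3) → ℕ := fun j =>
  if (j : ℕ) = 0 then 5 * n + 2 else if (j : ℕ) % 5 = 4 then 1 else if (j : ℕ) % 5 = 0 then 0
    else 5 * n + 3

theorem position_St (n : ℕ) : St n n (ext (position n)) := by
  have key : ∀ x, x < 5 * n + 3 → ext (position n) x =
      if x = 0 then 5 * n + 2 else if x % 5 = 4 then 1 else if x % 5 = 0 then 0
        else 5 * n + 3 := fun x hx => ext_val (position n) ⟨x, hx⟩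
  refine ⟨?_, ?_, ?_, ?_⟩
  · rw [key 0 (by omega)]; rfl
  · intro x hx h5
    rw [key x hx, if_neg (by omega), if_neg (by omega), if_neg (by omega)]
  · intro t ht
    rw [key _ (by omega), key _ (by omega), if_neg (by omega), if_pos (by omega),
      if_neg (by omega), if_neg (by omega), if_pos (by omega)]
    exact ⟨Or.inr rfl, rfl⟩
  · rw [Finset.filter_true_of_mem, Finset.card_range]
    intro t ht
    rw [Finset.mem_range] at ht
    rw [key _ (by omega), if_neg (by omega), if_pos (by omega)]

/-- **Theorem.** For every `n` the Sowing position `position n` has the value `2 ^ (-n)`. Hence the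
set of the positive integers `n` such that some Sowing position has the value `2 ^ (-n)` is the set
of all positive integers. -/
theorem result : (∀ n : ℕ, Game.Equal (game (position n)) (Game.powHalf n)) ∧
    {n : ℕ | 1 ≤ n ∧ ∃ (k : ℕ) (a : Fin k → ℕ), Game.Equal (game a) (Game.powHalf n)} =
      {n : ℕ | 1 ≤ n} := by
  have h : ∀ n : ℕ, Game.Equal (game (position n)) (Game.powHalf n) :=
    fun n => St_value n (position n) (position_St n)
  refine ⟨h, ?_⟩
  ext n
  exact ⟨fun hn => hn.1, fun hn => ⟨hn, _, position n, h n⟩⟩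

end Pool.Agent.Results.MP_90e647_co.AllPowers
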